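import Mathlib
import Pool.Agent.Q49.TL.Bra

/-!
# Diagonal forms over the p-adic numbers, uniformly in p (job TL-DQP, helper225)
-/

set_option autoImplicit false

open Finset

namespace Pool.Agent.Q225.TL

variable {p : ℕ} [hp : Fact p.Prime]

/-- Hensel's lemma for diagonal forms -/
theorem hens {ι : Type} [Fintype ι] [DecidableEq ι] {d : ℕ} (u y : ι → ℤ_[p]) (i0 : ι)
    (hu : ‖u i0‖ = 1) (hy : ‖y i0‖ = 1) (h : ‖∑ i, u i * y i ^ d‖ < ‖(d : ℤ_[p])‖ ^ 2) :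
    ∃ x : ι → ℤ_[p], x ≠ 0 ∧ ∑ i, u i * x i ^ d = 0 := by
  obtain ⟨r, hr⟩ : ∃ r, r = ∑ i ∈ univ.erase i0, u i * y i ^ d := ⟨_, rfl⟩
  have hsum : ∀ t : ℤ_[p], ∑ i, u i * (Function.update y i0 t) i ^ d = u i0 * t ^ d + r := by
    intro t
    rw [← Finset.add_sum_erase _ _ (mem_univ i0), Function.update_self, hr]
    congr 1
    refine sum_congr rfl fun i hi => ?_
    rw [Function.update_of_ne (ne_of_mem_erase hi)]
  obtain ⟨F, hF⟩ : ∃ F : Polynomial ℤ_[p], F = Polynomial.C (u i0) * Polynomial.X ^ d +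
      Polynomial.C r := ⟨_, rfl⟩
  have hF1 : ∀ t : ℤ_[p], Polynomial.aeval t F = u i0 * t ^ d + r := by
    intro t
    rw [hF]
    simp
  have hF2 : ∀ t : ℤ_[p], Polynomial.aeval t F.derivative = u i0 * (d * t ^ (d - 1)) := by
    intro t
    rw [hF, Polynomial.derivative_add, Polynomial.derivative_C, add_zero, Polynomial.derivative_C_mul,
      Polynomial.derivative_X_pow]
    simp
  have hn2 : ‖Polynomial.aeval (y i0) F.derivative‖ = ‖(d : ℤ_[p])‖ := by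
    rw [hF2, norm_mul, norm_mul, norm_pow, hu, hy, one_pow, mul_one, one_mul]
  have hn1 : ‖Polynomial.aeval (y i0) F‖ < ‖Polynomial.aeval (y i0) F.derivative‖ ^ 2 := by
    rw [hn2, hF1, ← hsum, Function.update_eq_self]
    exact h
  obtain ⟨z, hz1, hz2, -⟩ := hensels_lemma hn1
  refine ⟨Function.update y i0 z, ?_, ?_⟩
  · intro h0
    have h1 : z = 0 := by
      have := congrFun h0 i0
      rwa [Function.update_self] at this
    rw [h1, zero_sub, norm_neg, hy, hn2] at hz2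
    exact absurd hz2 (not_lt.2 (PadicInt.norm_le_one _))
  · rw [hsum, ← hF1, hz1]

/-- the case that `p` does not divide `d` -/
theorem unit1 {ι : Type} [Fintype ι] [DecidableEq ι] {d : ℕ} (hd : 0 < d) (hpd : ¬ p ∣ d)
    (hι : d < Fintype.card ι) (u : ι → ℤ_[p]) (hu : ∀ i, ‖u i‖ = 1) :
    ∃ x : ι → ℤ_[p], x ≠ 0 ∧ ∑ i, u i * x i ^ d = 0 := by
  obtain ⟨f, hf⟩ : ∃ f : MvPolynomial ι (ZMod p), f = ∑ i, MvPolynomial.C (PadicInt.toZMod (u i)) *
      MvPolynomial.X i ^ d := ⟨_, rfl⟩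
  have hdeg : f.totalDegree < Fintype.card ι := by
    refine lt_of_le_of_lt ?_ hι
    rw [hf]
    refine MvPolynomial.totalDegree_finsetSum_le fun i _ => ?_
    refine (MvPolynomial.totalDegree_mul _ _).trans ?_
    rw [MvPolynomial.totalDegree_C, zero_add]
    refine (MvPolynomial.totalDegree_pow _ _).trans ?_
    rw [MvPolynomial.totalDegree_X, mul_one]
  have hev : ∀ x : ι → ZMod p, MvPolynomial.eval x f = ∑ i, PadicInt.toZMod (u i) * x i ^ d := by
    intro x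
    rw [hf]
    simp
  have hdvd := char_dvd_card_solutions p hdeg
  have h0 : MvPolynomial.eval (0 : ι → ZMod p) f = 0 := by
    rw [hev]
    refine sum_eq_zero fun i _ => ?_
    rw [Pi.zero_apply, zero_pow hd.ne', mul_zero]
  have hcard : 1 < Fintype.card {x : ι → ZMod p // MvPolynomial.eval x f = 0} := by
    have h1 : 0 < Fintype.card {x : ι → ZMod p // MvPolynomial.eval x f = 0} :=
      Fintype.card_pos_iff.2 ⟨⟨0, h0⟩⟩
    exact lt_of_lt_of_le hp.out.one_lt (Nat.le_of_dvd h1 hdvd)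
  obtain ⟨⟨x, hx⟩, hx0⟩ := Fintype.exists_ne_of_one_lt_card hcard ⟨0, h0⟩
  have hx1 : x ≠ 0 := fun h => hx0 (Subtype.ext h)
  obtain ⟨i0, hi0⟩ := Function.ne_iff.1 hx1
  have hsurj : Function.Surjective (PadicInt.toZMod : ℤ_[p] →+* ZMod p) :=
    ZMod.ringHom_surjective _
  choose y hy using fun i => hsurj (x i)
  have hker : ∀ t : ℤ_[p], PadicInt.toZMod t = 0 ↔ ‖t‖ < 1 := by
    intro t
    rw [← RingHom.mem_ker, PadicInt.ker_toZMod, IsLocalRing.mem_maximalIdeal,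
      PadicInt.mem_nonunits]
  refine hens u y i0 (hu i0) ?_ ?_
  · have h1 : ¬ ‖y i0‖ < 1 := by
      rw [← hker, hy]
      exact hi0
    exact le_antisymm (PadicInt.norm_le_one _) (not_lt.1 h1)
  · have h1 : ‖(d : ℤ_[p])‖ = 1 := by
      have h2 : ¬ ‖(d : ℤ_[p])‖ < 1 := by
        rw [← hker, map_natCast, ZMod.natCast_eq_zero_iff]
        exact hpd
      exact le_antisymm (PadicInt.norm_le_one _) (not_lt.1 h2)
    rw [h1, one_pow, ← hker, map_sum]
    rw [hev] at hx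
    rw [← hx]
    refine sum_congr rfl fun i _ => ?_
    rw [map_mul, map_pow, hy]

/-- the case that `p` divides `d` -/
theorem unit2 {ι : Type} [Fintype ι] [DecidableEq ι] {d : ℕ} (hd : 0 < d) (hpd : p ∣ d)
    (hι : d ^ 4 * d ^ 4 < Fintype.card ι) (u : ι → ℤ_[p]) :
    ∃ x : ι → ℤ_[p], (∀ i, ‖u i‖ = 1) → x ≠ 0 ∧ ∑ i, u i * x i ^ d = 0 := by
  classical
  obtain ⟨v, hv⟩ : ∃ v, v = padicValNat p d := ⟨_, rfl⟩
  have hpv : p ^ v ∣ d := by
    rw [hv]
    exact pow_padicValNat_dvd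
  have hp0 : 0 < p := hp.out.pos
  have hple : p ≤ d := Nat.le_of_dvd hd hpd
  have hpvle : p ^ v ≤ d := Nat.le_of_dvd hd hpv
  obtain ⟨c, hc⟩ : ∃ c, c = 2 * v + 2 := ⟨_, rfl⟩
  have hpc : p ^ c ≤ d ^ 4 := by
    calc p ^ c = p ^ v * p ^ v * p * p := by rw [hc]; ring
      _ ≤ d * d * d * d := Nat.mul_le_mul (Nat.mul_le_mul (Nat.mul_le_mul hpvle hpvle) hple) hple
      _ = d ^ 4 := by ring
  have hcard : Fintype.card (ZMod (p ^ c)) * p ^ c < Fintype.card ι := by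
    rw [ZMod.card]
    exact lt_of_le_of_lt (Nat.mul_le_mul hpc hpc) hι
  obtain ⟨w, hw⟩ := Fintype.exists_lt_card_fiber_of_mul_lt_card
    (fun i => PadicInt.toZModPow c (u i)) hcard
  obtain ⟨S, hS1, hS2⟩ := Finset.exists_subset_card_eq hw.le
  have hSne : S.Nonempty := by
    rw [← Finset.card_pos, hS2]
    exact pow_pos hp0 c
  obtain ⟨i0, hi0⟩ := hSne
  have hsum : ∑ i, u i * (if i ∈ S then (1 : ℤ_[p]) else 0) ^ d = ∑ i ∈ S, u i := by
    have h1 : ∀ i, u i * (if i ∈ S then (1 : ℤ_[p]) else 0) ^ d = if i ∈ S then u i else 0 := by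
      intro i
      split_ifs
      · rw [one_pow, mul_one]
      · rw [zero_pow hd.ne', mul_zero]
    simp only [h1]
    rw [Finset.sum_ite_mem, univ_inter]
  have hz : PadicInt.toZModPow c (∑ i ∈ S, u i) = 0 := by
    rw [map_sum, Finset.sum_congr rfl (fun i hi => (Finset.mem_filter.1 (hS1 hi)).2), sum_const, hS2,
      nsmul_eq_mul, ZMod.natCast_self, zero_mul]
  have hn : ‖∑ i ∈ S, u i‖ ≤ (p : ℝ) ^ (-(c : ℤ)) := by
    rw [PadicInt.norm_le_pow_iff_mem_span_pow, ← PadicInt.ker_toZModPow, RingHom.mem_ker]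
    exact hz
  have hdn : (p : ℝ) ^ (-((v + 1 : ℕ) : ℤ)) < ‖(d : ℤ_[p])‖ := by
    by_contra hcon
    rw [not_lt, PadicInt.norm_le_pow_iff_mem_span_pow, ← PadicInt.ker_toZModPow, RingHom.mem_ker,
      map_natCast, ZMod.natCast_eq_zero_iff] at hcon
    rw [hv] at hcon
    exact pow_succ_padicValNat_not_dvd hd.ne' hcon
  obtain ⟨x, hx⟩ : ∃ x : ι → ℤ_[p], (∀ i, ‖u i‖ = 1) → x ≠ 0 ∧ ∑ i, u i * x i ^ d = 0 := by
    by_cases hu : ∀ i, ‖u i‖ = 1
    · obtain ⟨x, hx⟩ := hens (d := d) u (fun i => if i ∈ S then (1 : ℤ_[p]) else 0) i0 (hu i0)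
        (by rw [if_pos hi0, norm_one]) (by
          rw [hsum]
          refine lt_of_le_of_lt hn ?_
          have h1 : (p : ℝ) ^ (-(c : ℤ)) = ((p : ℝ) ^ (-((v + 1 : ℕ) : ℤ))) ^ 2 := by
            rw [← zpow_natCast, ← zpow_mul, hc]
            congr 1
            push_cast
            ring
          rw [h1]
          have h2 : 0 ≤ (p : ℝ) ^ (-((v + 1 : ℕ) : ℤ)) := zpow_nonneg (Nat.cast_nonneg _) _
          exact pow_lt_pow_left₀ hdn h2 two_ne_zero)
      exact ⟨x, fun _ => hx⟩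
    · exact ⟨0, fun h => absurd h hu⟩
  exact ⟨x, hx⟩

/-- units -/
theorem unit {ι : Type} [Fintype ι] {d : ℕ} (hd : 0 < d)
    (hι : d ^ 8 + d < Fintype.card ι) (u : ι → ℤ_[p]) (hu : ∀ i, ‖u i‖ = 1) :
    ∃ x : ι → ℤ_[p], x ≠ 0 ∧ ∑ i, u i * x i ^ d = 0 := by
  classical
  by_cases hpd : p ∣ d
  · have h1 : d ^ 4 * d ^ 4 < Fintype.card ι := by
      have e : d ^ 4 * d ^ 4 = d ^ 8 := by ring
      rw [e]
      omega
    obtain ⟨x, hx⟩ := unit2 hd hpd h1 u
    exact ⟨x, hx hu⟩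
  · exact unit1 hd hpd (by omega) u hu

theorem sum_dite_sub {α M : Type} [Fintype α] [AddCommMonoid M] (P : α → Prop) [DecidablePred P]
    (G : {i // P i} → M) : ∑ i, (if h : P i then G ⟨i, h⟩ else 0) = ∑ j, G j := by
  have h1 : ∑ i, (if h : P i then G ⟨i, h⟩ else 0) =
      ∑ i ∈ univ.filter P, (if h : P i then G ⟨i, h⟩ else 0) := by
    symm
    refine Finset.sum_filter_of_ne fun i _ hi => ?_
    by_contra hn
    exact hi (dif_neg hn)
  rw [h1, Finset.sum_subtype (univ.filter P) (p := P) (by simp)]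
  exact sum_congr rfl fun j _ => dif_pos j.2

theorem dqp : Pool.Agent.Q49.TL.S_DQP := by
  classical
  refine ⟨fun d => d * (d ^ 8 + d) + 1, ?_⟩
  intro p hp d hd s hs a
  by_cases h0 : ∃ i, a i = 0
  · obtain ⟨i, hi⟩ := h0
    refine ⟨Pi.single i 1, ?_, ?_⟩
    · intro h
      have := congrFun h i
      rw [Pi.single_eq_same] at this
      exact one_ne_zero this
    · refine sum_eq_zero fun j _ => ?_
      by_cases hj : j = i
      · rw [hj, hi, zero_mul]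
      · rw [Pi.single_eq_of_ne hj, zero_pow hd.ne', mul_zero]
  push Not at h0
  have hpR : (0 : ℝ) < p := by exact_mod_cast hp.out.pos
  have hpQ : (p : ℚ_[p]) ≠ 0 := by
    have : (p : ℕ) ≠ 0 := hp.out.ne_zero
    exact_mod_cast this
  obtain ⟨vv, hvv⟩ : ∃ vv : Fin s → ℤ, vv = fun i => (a i).valuation := ⟨_, rfl⟩
  have hnorm : ∀ i, ‖a i * (p : ℚ_[p]) ^ (-vv i)‖ = 1 := by
    intro i
    rw [norm_mul, Padic.norm_eq_zpow_neg_valuation (h0 i), Padic.norm_p_zpow, neg_neg, hvv,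
      ← zpow_add₀ hpR.ne', neg_add_cancel, zpow_zero]
  -- residues of the valuations
  have hdZ : (0 : ℤ) < d := by exact_mod_cast hd
  obtain ⟨rr, hrr⟩ : ∃ rr : Fin s → Fin d, ∀ i, ((rr i : ℕ) : ℤ) = vv i % d := by
    refine ⟨fun i => ⟨(vv i % d).toNat, ?_⟩, fun i => ?_⟩
    · have h1 := Int.emod_lt_of_pos (vv i) hdZ
      have h2 := Int.emod_nonneg (vv i) hdZ.ne'
      omega
    · have h2 := Int.emod_nonneg (vv i) hdZ.ne'
      exact Int.toNat_of_nonneg h2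
  have hcard : Fintype.card (Fin d) * (d ^ 8 + d) < Fintype.card (Fin s) := by
    rw [Fintype.card_fin, Fintype.card_fin]
    exact Nat.lt_of_succ_le hs
  obtain ⟨r, hr⟩ := Fintype.exists_lt_card_fiber_of_mul_lt_card rr hcard
  obtain ⟨U, hU⟩ : ∃ U : Fin s → ℤ_[p], ∀ i, (U i : ℚ_[p]) = a i * (p : ℚ_[p]) ^ (-vv i) :=
    ⟨fun i => ⟨a i * (p : ℚ_[p]) ^ (-vv i), (hnorm i).le⟩, fun i => rfl⟩
  obtain ⟨x, hx0, hx1⟩ := unit (p := p) (ι := {i : Fin s // rr i = r}) hd (by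
    rw [Fintype.card_subtype]
    exact hr) (fun i => U i) (fun i => by
      rw [PadicInt.norm_def, hU]
      exact hnorm i)
  obtain ⟨X, hX⟩ : ∃ X : Fin s → ℚ_[p], X = fun i => if h : rr i = r then
      (p : ℚ_[p]) ^ (-(vv i / d)) * (x ⟨i, h⟩ : ℚ_[p]) else 0 := ⟨_, rfl⟩
  refine ⟨X, ?_, ?_⟩
  · intro hX0
    apply hx0
    funext ⟨i, hi⟩
    have h1 := congrFun hX0 i
    rw [hX] at h1
    simp only [dif_pos hi, Pi.zero_apply] at h1
    have h2 := (mul_eq_zero.1 h1).resolve_left (zpow_ne_zero _ hpQ)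
    exact PadicInt.ext h2
  · have h1 : ∀ i, a i * X i ^ d = if h : rr i = r then (p : ℚ_[p]) ^ (r : ℕ) *
        ((a i * (p : ℚ_[p]) ^ (-vv i)) * (x ⟨i, h⟩ : ℚ_[p]) ^ d) else 0 := by
      intro i
      rw [hX]
      by_cases h : rr i = r
      · simp only [dif_pos h]
        have h2 : (p : ℚ_[p]) ^ (r : ℕ) * (p : ℚ_[p]) ^ (-vv i) = ((p : ℚ_[p]) ^ (-(vv i / d))) ^ d := by
          rw [← zpow_natCast, ← zpow_natCast, ← zpow_mul, ← zpow_add₀ hpQ]
          congr 1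
          have h3 := hrr i
          rw [h] at h3
          rw [h3]
          have h4 := Int.emod_add_mul_ediv (vv i) d
          linarith
        rw [mul_pow, ← h2]
        ring
      · simp only [dif_neg h]
        rw [zero_pow hd.ne', mul_zero]
    simp only [h1]
    rw [sum_dite_sub (fun i => rr i = r) (fun j : {i : Fin s // rr i = r} => (p : ℚ_[p]) ^ (r : ℕ) *
      ((a j * (p : ℚ_[p]) ^ (-vv j)) * (x j : ℚ_[p]) ^ d)), ← Finset.mul_sum]
    have h5 := congrArg (fun z : ℤ_[p] => (z : ℚ_[p])) hx1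
    simp only [PadicInt.coe_sum, PadicInt.coe_zero] at h5
    refine mul_eq_zero_of_right _ (Eq.trans ?_ h5)
    refine sum_congr rfl fun i _ => ?_
    rw [PadicInt.coe_mul, PadicInt.coe_pow, hU]

end Pool.Agent.Q225.TL
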