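import Mathlib
import Pool.Agent.Q49.TL.Pad

/-! # Project TL, JOB TL-DSC -/

set_option autoImplicit false

open MvPolynomial

namespace Pool.Agent.Q225.TL

open Pool.Agent.Q49.TL

/-- the translate of a finite Galois extension -/
theorem gal_ext (K0 K K1 : Type) [Field K0] [Field K] [Algebra K0 K] [Field K1] [Algebra K0 K1]
    [FiniteDimensional K0 K1] [IsGalois K0 K1] :
    ∃ (L : Type) (_ : Field L) (_ : Algebra K L) (_ : Algebra K0 L) (_ : IsScalarTower K0 K L)
      (_ : K1 →ₐ[K0] L), FiniteDimensional K L ∧ Module.finrank K L ∣ Module.finrank K0 K1 := by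
  obtain ⟨p, hp1, hp2⟩ := IsGalois.is_separable_splitting_field K0 K1
  set P := p.map (algebraMap K0 K) with hP
  have hPs : P.Separable := hp1.map
  set L := P.SplittingField with hL
  haveI hgal : IsGalois K L := IsGalois.of_separable_splitting_field hPs
  haveI hfd : FiniteDimensional K L := Polynomial.IsSplittingField.finiteDimensional L P
  have hmapL : p.map (algebraMap K0 L) = P.map (algebraMap K L) := by
    have h0 : P.map (algebraMap K L) = (p.map (algebraMap K0 K)).map (algebraMap K L) := rfl
    rw [h0, Polynomial.map_map, ← IsScalarTower.algebraMap_eq]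
  have hsp : (p.map (algebraMap K0 L)).Splits := by
    rw [hmapL]
    exact Polynomial.SplittingField.splits P
  let s : K1 →ₐ[K0] L := Polynomial.IsSplittingField.lift K1 p hsp
  refine ⟨L, inferInstance, inferInstance, inferInstance, inferInstance, s, hfd, ?_⟩
  letI : Algebra K1 L := s.toRingHom.toAlgebra
  haveI : IsScalarTower K0 K1 L := IsScalarTower.of_algebraMap_eq fun r => (s.commutes r).symm
  rw [← IsGalois.card_aut_eq_finrank K L, ← IsGalois.card_aut_eq_finrank K0 K1]
  let Φ : Gal(L/K) →* Gal(K1/K0) := (AlgEquiv.restrictNormalHom K1).comp (AlgEquiv.restrictScalarsHom K0)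
  refine Subgroup.card_dvd_of_injective Φ ?_
  rw [injective_iff_map_eq_one]
  intro τ hτ
  have h1 : ∀ a : K1, τ (s a) = s a := by
    intro a
    have h2 := AlgEquiv.restrictNormal_commutes (τ.restrictScalars K0) K1 a
    have h3 : (τ.restrictScalars K0).restrictNormal K1 = 1 := hτ
    rw [h3] at h2
    exact h2.symm
  have hp0 : p.map (algebraMap K0 L) ≠ 0 := (Polynomial.map_ne_zero_iff (algebraMap K0 L).injective).2 hp1.ne_zero
  have h4 : ∀ x ∈ P.rootSet L, τ x = x := by
    intro x hx
    have hx' : x ∈ p.rootSet L := by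
      rw [Polynomial.mem_rootSet] at hx ⊢
      refine ⟨hp1.ne_zero, ?_⟩
      rw [Polynomial.aeval_def, ← Polynomial.eval_map, hmapL, Polynomial.eval_map, ← Polynomial.aeval_def]
      exact hx.2
    have := Polynomial.Splits.image_rootSet_of_map_ne_zero (Polynomial.IsSplittingField.splits K1 p) s hp0
    rw [← this] at hx'
    obtain ⟨a, _, rfl⟩ := hx'
    exact h1 a
  apply AlgEquiv.ext
  intro x
  have htop := Polynomial.SplittingField.adjoin_rootSet P
  have hx : x ∈ Algebra.adjoin K (P.rootSet L) := by
    rw [htop]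
    trivial
  induction hx using Algebra.adjoin_induction with
  | mem x hx => exact h4 x hx
  | algebraMap r => exact τ.commutes r
  | add x y _ _ hx hy => rw [map_add, hx, hy]; rfl
  | mul x y _ _ hx hy => rw [map_mul, hx, hy]; rfl

/-- weighted homogeneity of a substitution -/
theorem wh_subst {R σ ι : Type} [CommRing R] [Fintype ι] (w : ι → ℕ) (W : σ → ℕ) (e : ℕ)
    (g : MvPolynomial ι R) (hg : IsWeightedHomogeneous w g e) (x : ι → MvPolynomial σ R)
    (hx : ∀ i, IsWeightedHomogeneous W (x i) (w i)) : IsWeightedHomogeneous W (aeval x g) e := by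
  rw [aeval_def, eval₂_eq']
  apply IsWeightedHomogeneous.sum
  intro d hd
  have hwd : ∑ i, d i • w i = e := by
    rw [← hg (mem_support_iff.1 hd), Finsupp.weight_apply, Finsupp.sum_fintype _ _ (fun i => by simp)]
  have h1 : IsWeightedHomogeneous W (C (g.coeff d) * ∏ i, x i ^ d i) (0 + ∑ i, d i • w i) :=
    (isWeightedHomogeneous_C W _).mul (IsWeightedHomogeneous.prod _ _ _ fun i _ => (hx i).pow (d i))
  rw [zero_add, hwd] at h1
  exact h1

theorem dsc : S_DSC := by
  intro K0 K _ _ _ _ _ ι κ _ _ w e f hf
  classical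
  set m := Module.finrank K0 K with hm
  let b : Module.Basis (Fin m) K0 K := Module.finBasis K0 K
  set Xs : ι → MvPolynomial (ι × Fin m) K := fun i => ∑ k, C (b k) * X (i, k) with hXs
  set Fj : κ → MvPolynomial (ι × Fin m) K := fun j => aeval Xs (f j) with hFj
  have hFw : ∀ j, IsWeightedHomogeneous (fun s : ι × Fin m => w s.1) (Fj j) (e j) := by
    intro j
    apply wh_subst w _ (e j) (f j) (hf j)
    intro i
    apply IsWeightedHomogeneous.sum
    intro k _
    have := (isWeightedHomogeneous_C (fun s : ι × Fin m => w s.1) (b k)).mul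
      (isWeightedHomogeneous_X K (fun s : ι × Fin m => w s.1) (i, k))
    rwa [zero_add] at this
  set g : κ × Fin m → MvPolynomial (ι × Fin m) K0 := fun jk =>
    ∑ d ∈ (Fj jk.1).support, monomial d (b.repr ((Fj jk.1).coeff d) jk.2) with hg
  have hFg : ∀ j, Fj j = ∑ k, C (b k) * MvPolynomial.map (algebraMap K0 K) (g (j, k)) := by
    intro j
    have e1 : ∀ k, C (b k) * MvPolynomial.map (algebraMap K0 K) (g (j, k)) =
        ∑ d ∈ (Fj j).support, monomial d (b k * algebraMap K0 K (b.repr ((Fj j).coeff d) k)) := by
      intro k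
      simp only [hg]
      rw [map_sum, Finset.mul_sum]
      refine Finset.sum_congr rfl fun d _ => ?_
      rw [map_monomial, C_mul_monomial]
    rw [Finset.sum_congr rfl fun k _ => e1 k, Finset.sum_comm]
    conv_lhs => rw [(Fj j).as_sum]
    refine Finset.sum_congr rfl fun d _ => ?_
    rw [← map_sum]
    congr 1
    conv_lhs => rw [← b.sum_repr ((Fj j).coeff d)]
    refine Finset.sum_congr rfl fun k _ => ?_
    rw [Algebra.smul_def, mul_comm]
  refine ⟨m, g, Module.finrank_pos, ?_, ?_⟩
  · intro jk
    apply IsWeightedHomogeneous.sum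
    intro d hd
    exact isWeightedHomogeneous_monomial _ d _ (hFw jk.1 (mem_support_iff.1 hd))
  · intro K1 _ _ _ _ ℓ _ hℓ y hy0 hy
    obtain ⟨L, _, _, _, _, s, hfd, hdvd⟩ := gal_ext K0 K K1
    refine ⟨L, inferInstance, inferInstance, hfd, fun h => hℓ (h.trans hdvd), ?_⟩
    -- a nonzero solution
    have hex : ∃ τ : Gal(K1/K0), (fun i => ∑ k, algebraMap K L (b k) * s (τ (y (i, k)))) ≠ (0 : ι → L) := by
      by_contra hcon
      push Not at hcon
      apply hy0
      funext ⟨i, k0⟩
      show y (i, k0) = 0
      have htr : ∀ c : K1, ∀ k, Algebra.trace K0 K1 (y (i, k) * c) = 0 := by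
        intro c
        have h1 : ∑ k, Algebra.trace K0 K1 (y (i, k) * c) • b k = 0 := by
          apply (algebraMap K L).injective
          rw [map_zero, map_sum]
          have h2 : ∀ k, algebraMap K L (Algebra.trace K0 K1 (y (i, k) * c) • b k) =
              ∑ τ : Gal(K1/K0), s (τ c) * (algebraMap K L (b k) * s (τ (y (i, k)))) := by
            intro k
            rw [Algebra.smul_def, map_mul, ← IsScalarTower.algebraMap_apply, ← s.commutes,
              trace_eq_sum_automorphisms, map_sum, Finset.sum_mul]
            refine Finset.sum_congr rfl fun τ _ => ?_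
            rw [map_mul, map_mul]
            ring
          rw [Finset.sum_congr rfl fun k _ => h2 k, Finset.sum_comm]
          apply Finset.sum_eq_zero
          intro τ _
          rw [← Finset.mul_sum]
          have h3 := congrFun (hcon τ) i
          rw [show (∑ k, algebraMap K L (b k) * s (τ (y (i, k)))) = 0 from h3, mul_zero]
        exact fun k => Fintype.linearIndependent_iff.1 b.linearIndependent _ h1 k
      exact (traceForm_nondegenerate K0 K1).1 _ fun c => by
        rw [Algebra.traceForm_apply]
        exact htr c k0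
    obtain ⟨τ, hτ⟩ := hex
    refine ⟨_, hτ, fun j => ?_⟩
    set z : ι × Fin m → L := fun a => s (τ (y a)) with hz
    have e1 : aeval z (Fj j) = aeval (fun i => ∑ k, algebraMap K L (b k) * s (τ (y (i, k)))) (f j) := by
      simp only [hFj]
      rw [comp_aeval_apply]
      congr 1
      congr 1
      funext i
      simp only [hXs]
      rw [map_sum]
      refine Finset.sum_congr rfl fun k _ => ?_
      rw [map_mul, aeval_C, aeval_X]
    rw [← e1, hFg, map_sum]
    apply Finset.sum_eq_zero
    intro k _
    rw [map_mul, aeval_map_algebraMap]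
    have h1 : aeval z (g (j, k)) = s (τ (aeval y (g (j, k)))) := by
      have h2 := comp_aeval_apply (s.comp (τ : K1 →ₐ[K0] K1)) (f := y) (g (j, k))
      exact h2.symm
    rw [h1, hy, map_zero, map_zero, mul_zero]

end Pool.Agent.Q225.TL
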