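import Mathlib
import Pool.Agent.Q49.TL.Pad

/-! # Project TL, JOB TL-GEN -/

set_option autoImplicit false

open MvPolynomial nonZeroDivisors

namespace Pool.Agent.Q225.TL

open Pool.Agent.Q49.TL

theorem gen_aux (B R : Type) [CommRing B] [IsDomain B] [CharZero B] [CommRing R] [IsDomain R] [Algebra B R]
    [FaithfulSMul B R] [Algebra.IsAlgebraic B R] (ι : Type) [Fintype ι] (x : ι → R) :
    ∃ (c : R) (Q : B) (G : Polynomial B) (P : ι → Polynomial B), Q ≠ 0 ∧ Polynomial.aeval c G = 0 ∧
      Polynomial.aeval c G.derivative ≠ 0 ∧ (∀ i, Polynomial.aeval c (P i) = algebraMap B R Q * x i) ∧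
      ∀ H : Polynomial B, Polynomial.aeval c H = 0 → ∃ a : B, a ≠ 0 ∧ ∃ S : Polynomial B,
        Polynomial.C a * H = G * S := by
  classical
  set E0 := FractionRing B with hE0
  set E := FractionRing R with hE
  haveI : FaithfulSMul B E := by
    rw [faithfulSMul_iff_algebraMap_injective, IsScalarTower.algebraMap_eq B R E]
    exact (IsFractionRing.injective R E).comp (FaithfulSMul.algebraMap_injective B R)
  letI : Algebra E0 E := FractionRing.liftAlgebra B E
  haveI : IsScalarTower B E0 E := FractionRing.isScalarTower_liftAlgebra B E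
  have hinj : Function.Injective (algebraMap R E) := IsFractionRing.injective R E
  have hinj0 : Function.Injective (algebraMap B E0) := IsFractionRing.injective B E0
  haveI : CharZero E0 := charZero_of_injective_algebraMap hinj0
  have hint : ∀ r : R, IsIntegral E0 (algebraMap R E r) := by
    intro r
    have h1 : IsAlgebraic B r := Algebra.IsAlgebraic.isAlgebraic r
    have h2 : IsAlgebraic B (algebraMap R E r) := h1.algebraMap
    exact (h2.extendScalars hinj0).isIntegral
  -- the field generated by the `x i`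
  set F := IntermediateField.adjoin E0 (Set.range fun i => algebraMap R E (x i)) with hF
  haveI hfd : FiniteDimensional E0 F := IntermediateField.finiteDimensional_adjoin (by
    rintro _ ⟨i, rfl⟩
    exact hint _)
  obtain ⟨α, hα⟩ := Field.exists_primitive_element E0 F
  have hr : ∀ i, ∃ r : Polynomial E0, Polynomial.aeval (α : E) r = algebraMap R E (x i) := by
    intro i
    have h1 : (⟨algebraMap R E (x i), IntermediateField.subset_adjoin _ _ ⟨i, rfl⟩⟩ : F) ∈
        IntermediateField.adjoin E0 {α} := by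
      rw [hα]
      trivial
    have h2 : IsIntegral E0 α := Algebra.IsIntegral.isIntegral α
    rw [← IntermediateField.mem_toSubalgebra, IntermediateField.adjoin_simple_toSubalgebra_of_isAlgebraic h2.isAlgebraic,
      Algebra.adjoin_singleton_eq_range_aeval] at h1
    obtain ⟨r, hr⟩ := h1
    refine ⟨r, ?_⟩
    have h3 : algebraMap F E (Polynomial.aeval α r) =
        algebraMap F E ⟨algebraMap R E (x i), IntermediateField.subset_adjoin _ _ ⟨i, rfl⟩⟩ := congrArg (algebraMap F E) hr
    rw [← Polynomial.aeval_algebraMap_apply] at h3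
    exact h3
  choose r hr using hr
  obtain ⟨u, v, hv, huv⟩ := IsFractionRing.div_surjective R (α : E)
  obtain ⟨c, d, hd, hcd⟩ := Algebra.IsAlgebraic.exists_smul_eq_mul B u (nonZeroDivisors.ne_zero hv)
  have hv0 : algebraMap R E v ≠ 0 := fun h => nonZeroDivisors.ne_zero hv (hinj (h.trans (map_zero _).symm))
  have hd0 : algebraMap B E0 d ≠ 0 := fun h => hd (hinj0 (h.trans (map_zero _).symm))
  set θ : E := algebraMap R E c with hθ
  have hθα : θ = algebraMap E0 E (algebraMap B E0 d) * (α : E) := by
    rw [← huv, ← IsScalarTower.algebraMap_apply, mul_div_assoc', eq_div_iff hv0]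
    have h1 := congrArg (algebraMap R E) hcd
    rw [Algebra.smul_def, map_mul, map_mul, ← IsScalarTower.algebraMap_apply] at h1
    rw [h1, mul_comm]
  have hαθ : (α : E) = algebraMap E0 E (algebraMap B E0 d)⁻¹ * θ := by
    rw [hθα, ← mul_assoc, ← map_mul, inv_mul_cancel₀ hd0, map_one, one_mul]
  set p : ι → Polynomial E0 := fun i => (r i).comp (Polynomial.C (algebraMap B E0 d)⁻¹ * Polynomial.X) with hp
  have hpx : ∀ i, Polynomial.aeval θ (p i) = algebraMap R E (x i) := by
    intro i
    rw [hp]
    simp only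
    rw [Polynomial.aeval_comp, ← hr i]
    congr 1
    congr 1
    rw [map_mul, Polynomial.aeval_C, Polynomial.aeval_X, hαθ]
  -- evaluation
  have hev : ∀ (H : Polynomial B), algebraMap R E (Polynomial.aeval c H) =
      Polynomial.aeval θ (H.map (algebraMap B E0)) := by
    intro H
    rw [Polynomial.aeval_map_algebraMap, ← Polynomial.aeval_algebraMap_apply]
  have hsm : ∀ (b : B) (s : Polynomial E0), b • s = Polynomial.C (algebraMap B E0 b) * s := by
    intro b s
    rw [← Polynomial.smul_eq_C_mul, IsScalarTower.algebraMap_smul]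
  have hclear : ∀ s : Polynomial E0, ∃ b : B, b ≠ 0 ∧ ∃ S : Polynomial B,
      S.map (algebraMap B E0) = Polynomial.C (algebraMap B E0 b) * s := by
    intro s
    obtain ⟨b, hb, h⟩ := IsLocalization.integerNormalization_spec B⁰ s
    exact ⟨b, nonZeroDivisors.ne_zero hb, _, h.trans (hsm b s)⟩
  set μ := minpoly E0 θ with hμ
  have hθint : IsIntegral E0 θ := hint c
  obtain ⟨g0, hg0, G, hG⟩ := hclear μ
  have hg0' : algebraMap B E0 g0 ≠ 0 := fun h => hg0 (hinj0 (h.trans (map_zero _).symm))
  choose b hb P0 hP0 using fun i => hclear (p i)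
  refine ⟨c, ∏ i, b i, G, fun i => Polynomial.C (∏ j ∈ Finset.univ.erase i, b j) * P0 i,
    Finset.prod_ne_zero_iff.2 fun i _ => hb i, ?_, ?_, ?_, ?_⟩
  · apply hinj
    rw [hev, hG, map_mul, minpoly.aeval, mul_zero, map_zero]
  · intro h0
    have h1 := congrArg (algebraMap R E) h0
    rw [hev, map_zero, ← Polynomial.derivative_map, hG, Polynomial.derivative_C_mul, map_mul, Polynomial.aeval_C] at h1
    rcases mul_eq_zero.1 h1 with h2 | h2
    · exact hg0' ((algebraMap E0 E).injective (h2.trans (map_zero _).symm))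
    · exact ((minpoly.irreducible hθint).separable).aeval_derivative_ne_zero (minpoly.aeval E0 θ) h2
  · intro i
    apply hinj
    rw [hev, Polynomial.map_mul, Polynomial.map_C, hP0, map_mul, map_mul, Polynomial.aeval_C, Polynomial.aeval_C,
      hpx, map_mul, ← Finset.prod_erase_mul (Finset.univ) b (Finset.mem_univ i), map_mul, map_mul, mul_assoc]
    simp only [← IsScalarTower.algebraMap_apply]
  · intro H hH
    have h1 : Polynomial.aeval θ (H.map (algebraMap B E0)) = 0 := by
      rw [← hev, hH, map_zero]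
    obtain ⟨s, hs⟩ := minpoly.dvd E0 θ h1
    obtain ⟨b1, hb1, S, hS⟩ := hclear s
    refine ⟨g0 * b1, mul_ne_zero hg0 hb1, S, ?_⟩
    apply Polynomial.map_injective (algebraMap B E0) hinj0
    rw [Polynomial.map_mul, Polynomial.map_mul, hG, hS, hs, Polynomial.map_C, map_mul, Polynomial.C_mul]
    ring

theorem hmg_map {ι A R R' : Type} [CommRing A] [CommRing R] [CommRing R'] [Algebra A R] [Algebra A R']
    (φ : R →ₐ[A] R') (N : ℕ) (P : ι → R) (Q : R) (f : MvPolynomial ι A) :
    φ (hmg N P Q f) = hmg N (fun i => φ (P i)) (φ Q) f := by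
  unfold hmg
  rw [map_sum]
  refine Finset.sum_congr rfl fun a _ => ?_
  rw [map_mul, map_mul, AlgHom.commutes, map_pow]
  congr 2
  unfold Finsupp.prod
  rw [map_prod]
  exact Finset.prod_congr rfl fun i _ => map_pow _ _ _

theorem hmg_eval {ι A R : Type} [CommRing A] [CommRing R] [Algebra A R] (N : ℕ) (x : ι → R) (t : R)
    (f : MvPolynomial ι A) (hN : f.totalDegree ≤ N) :
    hmg N (fun i => t * x i) t f = t ^ N * aeval x f := by
  unfold hmg
  rw [aeval_def, eval₂_eq, Finset.mul_sum]
  refine Finset.sum_congr rfl fun a ha => ?_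
  have h1 : a.degree ≤ N := (le_totalDegree ha).trans hN
  have h2 : (a.prod fun i k => (t * x i) ^ k) = t ^ a.degree * ∏ i ∈ a.support, x i ^ a i := by
    unfold Finsupp.prod
    rw [Finset.prod_congr rfl fun i _ => mul_pow t (x i) (a i), Finset.prod_mul_distrib, Finset.prod_pow_eq_pow_sum]
    rfl
  rw [h2]
  have h3 : t ^ N = t ^ (N - a.degree) * t ^ a.degree := by
    rw [← pow_add, Nat.sub_add_cancel h1]
  rw [h3]
  ring

theorem gen : S_GEN := by
  intro A _ _ _ ι _ q hq hA κ _ f hf
  classical
  haveI := Fintype.ofFinite ι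
  haveI := hq
  set R := MvPolynomial ι A ⧸ q with hR
  haveI : IsDomain R := Ideal.Quotient.isDomain q
  set x : ι → R := fun i => Ideal.Quotient.mk q (X i) with hx
  have hAR : ∀ a : A, algebraMap A R a = Ideal.Quotient.mk q (C a) := fun a => rfl
  have hAinj : Function.Injective (algebraMap A R) := by
    rw [injective_iff_map_eq_zero]
    intro a ha
    apply hA
    rw [hAR] at ha
    exact Ideal.Quotient.eq_zero_iff_mem.1 ha
  haveI : FaithfulSMul A R := (faithfulSMul_iff_algebraMap_injective A R).2 hAinj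
  have haev : ∀ g : MvPolynomial ι A, aeval x g = Ideal.Quotient.mk q g := by
    intro g
    have h1 := comp_aeval_apply (Ideal.Quotient.mkₐ A q) (f := (X : ι → MvPolynomial ι A)) g
    rw [aeval_X_left_apply] at h1
    exact h1.symm
  have htop : Algebra.adjoin A (Set.range x) = ⊤ := by
    rw [Algebra.adjoin_range_eq_range_aeval, AlgHom.range_eq_top]
    intro r
    obtain ⟨g, rfl⟩ := Ideal.Quotient.mk_surjective r
    exact ⟨g, haev g⟩
  haveI : Algebra.IsAlgebraic (Algebra.adjoin A (Set.range x)) R := by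
    constructor
    intro r
    have hr : r ∈ Algebra.adjoin A (Set.range x) := by rw [htop]; trivial
    exact isAlgebraic_algebraMap (⟨r, hr⟩ : Algebra.adjoin A (Set.range x))
  obtain ⟨u, hu1, hu2⟩ := exists_isTranscendenceBasis_subset (R := A) (A := R) (Set.range x)
  set B := MvPolynomial u A with hB
  letI algBR : Algebra B R := ((aeval (Subtype.val : u → R) : B →ₐ[A] R) : B →+* R).toAlgebra
  have hBR : ∀ b : B, algebraMap B R b = aeval (Subtype.val : u → R) b := fun b => rfl
  haveI : FaithfulSMul B R := by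
    rw [faithfulSMul_iff_algebraMap_injective]
    exact hu2.1
  haveI : Algebra.IsAlgebraic B R := by
    constructor
    intro r
    have halg := hu2.isAlgebraic
    obtain ⟨g, hg0, hg⟩ := halg.isAlgebraic r
    let e := hu2.1.aevalEquiv
    refine ⟨g.map (e.symm : Algebra.adjoin A (Set.range (Subtype.val : u → R)) →+* B), ?_, ?_⟩
    · rw [Polynomial.map_ne_zero_iff]
      · exact hg0
      · exact e.symm.injective
    · rw [Polynomial.aeval_def, Polynomial.eval₂_map]
      have h1 : (algebraMap B R).comp (e.symm : Algebra.adjoin A (Set.range (Subtype.val : u → R)) →+* B) =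
          algebraMap (Algebra.adjoin A (Set.range (Subtype.val : u → R))) R := by
        apply RingHom.ext
        intro z
        have h2 := hu2.1.algebraMap_aevalEquiv (e.symm z)
        exact h2.symm.trans (congrArg _ (e.apply_symm_apply z))
      rw [h1]
      rwa [Polynomial.aeval_def] at hg
  obtain ⟨c, Q, G, P, hQ, hG, hG', hP, hdiv⟩ := gen_aux B R ι x
  -- the lift to polynomials
  choose k hk using fun a : u => hu1 a.2
  let ψ : B →ₐ[A] MvPolynomial ι A := aeval fun a : u => (X (k a) : MvPolynomial ι A)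
  have hψ : ∀ b : B, Ideal.Quotient.mk q (ψ b) = algebraMap B R b := by
    intro b
    have h1 := comp_aeval_apply (Ideal.Quotient.mkₐ A q) (f := fun a : u => (X (k a) : MvPolynomial ι A)) b
    rw [hBR]
    refine h1.trans ?_
    congr 1
    congr 1
    funext a
    exact hk a
  have hψq : ∀ b : B, ψ b ∈ q → b = 0 := by
    intro b hb
    have h1 := Ideal.Quotient.eq_zero_iff_mem.2 hb
    rw [hψ] at h1
    exact (FaithfulSMul.algebraMap_injective B R) (h1.trans (map_zero _).symm)
  obtain ⟨Θ, hΘ⟩ := Ideal.Quotient.mk_surjective c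
  let Ψ : Polynomial B →ₐ[A] Polynomial (MvPolynomial ι A) := Polynomial.mapAlgHom ψ
  have hΨ : ∀ H : Polynomial B, Ideal.Quotient.mk q ((Ψ H).eval Θ) = Polynomial.aeval c H := by
    intro H
    have h1 : Ψ H = H.map (ψ : B →+* MvPolynomial ι A) := rfl
    rw [h1, Polynomial.eval_map, Polynomial.hom_eval₂, hΘ, Polynomial.aeval_def]
    congr 1
    apply RingHom.ext
    intro b
    exact hψ b
  have hΨd : ∀ H : Polynomial B, (Ψ H).derivative = Ψ H.derivative := by
    intro H
    exact Polynomial.derivative_map H (ψ : B →+* MvPolynomial ι A)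
  have hΨC : ∀ b : B, Ψ (Polynomial.C b) = Polynomial.C (ψ b) := by
    intro b
    exact Polynomial.map_C (ψ : B →+* MvPolynomial ι A)
  set N := Finset.univ.sup fun j => (f j).totalDegree with hN
  have hNj : ∀ j, (f j).totalDegree ≤ N := fun j => Finset.le_sup (f := fun j => (f j).totalDegree) (Finset.mem_univ j)
  haveI : IsScalarTower A B R := IsScalarTower.of_algebraMap_eq fun a => ((aeval (Subtype.val : u → R) : B →ₐ[A] R).commutes a).symm
  have hH0 : ∀ j, Polynomial.aeval c (hmg N P (Polynomial.C Q) (f j)) = 0 := by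
    intro j
    have h1 := hmg_map ((Polynomial.aeval c : Polynomial B →ₐ[B] R).restrictScalars A) N P (Polynomial.C Q) (f j)
    have h2 : (Polynomial.aeval c : Polynomial B →ₐ[B] R).restrictScalars A (hmg N P (Polynomial.C Q) (f j)) =
      Polynomial.aeval c (hmg N P (Polynomial.C Q) (f j)) := rfl
    rw [← h2, h1]
    have h3 : (fun i => (Polynomial.aeval c : Polynomial B →ₐ[B] R).restrictScalars A (P i)) =
        fun i => algebraMap B R Q * x i := funext fun i => hP i
    have h4 : (Polynomial.aeval c : Polynomial B →ₐ[B] R).restrictScalars A (Polynomial.C Q) = algebraMap B R Q :=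
      Polynomial.aeval_C _ _
    rw [h3, h4, hmg_eval N x _ (f j) (hNj j), haev, Ideal.Quotient.eq_zero_iff_mem.2 (hf j), mul_zero]
  choose a ha S hS using fun j => hdiv _ (hH0 j)
  refine ⟨N, Θ, ψ (∏ j, a j), ψ Q, Ψ G, fun i => Ψ (P i),
    fun j => Ψ (Polynomial.C (∏ i ∈ Finset.univ.erase j, a i) * S j), hNj, ?_, ?_, ?_, ?_, ?_, ?_⟩
  · intro h
    exact (Finset.prod_ne_zero_iff.2 fun j _ => ha j) (hψq _ h)
  · intro h
    exact hQ (hψq _ h)
  · apply Ideal.Quotient.eq_zero_iff_mem.1
    rw [hΨ, hG]
  · intro h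
    apply hG'
    rw [← hΨ, ← hΨd]
    exact Ideal.Quotient.eq_zero_iff_mem.2 h
  · intro i
    apply Ideal.Quotient.eq_zero_iff_mem.1
    rw [map_sub, map_mul, hΨ, hψ, hP, sub_self]
  · intro j
    rw [← hΨC, ← hΨC]
    have h1 := hmg_map Ψ N P (Polynomial.C Q) (f j)
    rw [← h1, ← map_mul, ← map_mul]
    congr 1
    rw [← Finset.prod_erase_mul Finset.univ a (Finset.mem_univ j), Polynomial.C_mul, mul_assoc, hS j]
    ring

end Pool.Agent.Q225.TL
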