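import Mathlib
import Pool.Agent.Q49.TL.Pad

/-! # Project TL, JOB TL-KAP -/

set_option autoImplicit false

open Polynomial

namespace Pool.Agent.Q225.TL

open Pool.Agent.Q49.TL

theorem finrank_dvd (p : ℕ) [Fact p.Prime] (L : Type) [Field L] [Finite L] [Algebra (ZMod p) L] (m : ℕ)
    (h : ∀ z : L, z ^ p ^ m = z) : Module.finrank (ZMod p) L ∣ m := by
  rw [← FiniteField.orderOf_frobeniusAlgHom (ZMod p) L]
  apply orderOf_dvd_of_pow_eq_one
  ext z
  rw [AlgHom.coe_pow, FiniteField.coe_frobeniusAlgHom, pow_iterate, ZMod.card]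
  exact h z

theorem pow_mult {L : Type} [Monoid L] (p m n : ℕ) (z : L) (h : z ^ p ^ m = z) : z ^ p ^ (m * n) = z := by
  induction n with
  | zero => rw [Nat.mul_zero, pow_zero, pow_one]
  | succ n ih =>
    rw [Nat.mul_succ, pow_add, pow_mul, ih, h]

/-- elements fixed by a power of the Frobenius -/
def fx (p : ℕ) [Fact p.Prime] (L : Type) [Field L] [Algebra (ZMod p) L] (m : ℕ) : IntermediateField (ZMod p) L where
  carrier := {z | z ^ p ^ m = z}
  mul_mem' := by
    intro a b ha hb
    show (a * b) ^ p ^ m = a * b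
    rw [mul_pow, ha, hb]
  add_mem' := by
    intro a b ha hb
    show (a + b) ^ p ^ m = a + b
    have : CharP L p := charP_of_injective_algebraMap (algebraMap (ZMod p) L).injective p
    rw [add_pow_char_pow, ha, hb]
  algebraMap_mem' := by
    intro r
    show (algebraMap (ZMod p) L r) ^ p ^ m = algebraMap (ZMod p) L r
    rw [← map_pow, ZMod.pow_card_pow]
  inv_mem' := by
    intro a ha
    show (a⁻¹) ^ p ^ m = a⁻¹
    rw [inv_pow, ha]

theorem mem_fx {p : ℕ} [Fact p.Prime] {L : Type} [Field L] [Algebra (ZMod p) L] {m : ℕ} {z : L} :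
    z ∈ fx p L m ↔ z ^ p ^ m = z := Iff.rfl

theorem fx_finite (p : ℕ) [Fact p.Prime] (L : Type) [Field L] [Algebra (ZMod p) L] (m : ℕ) (hm : m ≠ 0) :
    Finite (fx p L m) := by
  classical
  have hp : p.Prime := Fact.out
  have h1 : 1 < p ^ m := Nat.one_lt_pow hm hp.one_lt
  have : ((fx p L m : Set L)).Finite := by
    apply ((X ^ p ^ m - X : Polynomial L).roots.toFinset.finite_toSet).subset
    intro z hz
    have hz' : z ^ p ^ m = z := hz
    rw [Finset.mem_coe, Multiset.mem_toFinset, mem_roots (FiniteField.X_pow_card_sub_X_ne_zero L h1)]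
    simp [hz']
  exact this.to_subtype

/-- the field -/
def kp (p ℓ : ℕ) [Fact p.Prime] [Fact ℓ.Prime] (L : Type) [Field L] [Algebra (ZMod p) L] :
    IntermediateField (ZMod p) L where
  carrier := {z | ∃ m, ¬ ℓ ∣ m ∧ z ^ p ^ m = z}
  mul_mem' := by
    rintro a b ⟨m, hm, ha⟩ ⟨n, hn, hb⟩
    refine ⟨m * n, fun h => ((Fact.out : ℓ.Prime).dvd_mul.1 h).elim hm hn, ?_⟩
    rw [mul_pow, pow_mult p m n a ha, mul_comm m n, pow_mult p n m b hb]
  add_mem' := by
    rintro a b ⟨m, hm, ha⟩ ⟨n, hn, hb⟩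
    refine ⟨m * n, fun h => ((Fact.out : ℓ.Prime).dvd_mul.1 h).elim hm hn, ?_⟩
    have : CharP L p := charP_of_injective_algebraMap (algebraMap (ZMod p) L).injective p
    rw [add_pow_char_pow, pow_mult p m n a ha, mul_comm m n, pow_mult p n m b hb]
  algebraMap_mem' := by
    intro r
    refine ⟨1, (Fact.out : ℓ.Prime).one_lt.ne' ∘ Nat.dvd_one.1, ?_⟩
    rw [← map_pow, ZMod.pow_card_pow]
  inv_mem' := by
    rintro a ⟨m, hm, ha⟩
    refine ⟨m, hm, ?_⟩
    rw [inv_pow, ha]

theorem mem_kp {p ℓ : ℕ} [Fact p.Prime] [Fact ℓ.Prime] {L : Type} [Field L] [Algebra (ZMod p) L] {z : L} :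
    z ∈ kp p ℓ L ↔ ∃ m, ¬ ℓ ∣ m ∧ z ^ p ^ m = z := Iff.rfl

theorem kp_fin (p ℓ : ℕ) [Fact p.Prime] [Fact ℓ.Prime] (L : Type) [Field L] [Algebra (ZMod p) L]
    (S : Finset (kp p ℓ L)) : ∃ K : IntermediateField (ZMod p) (kp p ℓ L), (∀ x ∈ S, x ∈ K) ∧
      Finite K ∧ ¬ ℓ ∣ Module.finrank (ZMod p) K := by
  classical
  have hl : ℓ.Prime := Fact.out
  choose m hm1 hm2 using fun x : kp p ℓ L => mem_kp.1 x.2
  have hM : ¬ ℓ ∣ ∏ x ∈ S, m x := by
    intro h
    obtain ⟨x, _, hx⟩ := (hl.prime.dvd_finsetProd_iff _).1 h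
    exact hm1 x hx
  have hM0 : ∏ x ∈ S, m x ≠ 0 := fun h => hM (h ▸ dvd_zero _)
  have := fx_finite p (kp p ℓ L) _ hM0
  refine ⟨fx p (kp p ℓ L) (∏ x ∈ S, m x), ?_, inferInstance, ?_⟩
  · intro x hx
    rw [mem_fx, ← Finset.mul_prod_erase S m hx]
    apply pow_mult
    apply Subtype.ext
    exact hm2 x
  · intro h
    apply hM
    refine h.trans (finrank_dvd p _ _ ?_)
    intro z
    apply Subtype.ext
    exact z.2

theorem kap : S_KAP := by
  intro p ℓ _ _
  have hl : ℓ.Prime := Fact.out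
  have hp : p.Prime := Fact.out
  refine ⟨kp p ℓ (AlgebraicClosure (ZMod p)), inferInstance, inferInstance, inferInstance, ?_, ?_⟩
  · intro g hg hN
    by_contra hdiv
    -- a root in the algebraic closure
    have hdeg : (g.map (algebraMap (kp p ℓ (AlgebraicClosure (ZMod p))) (AlgebraicClosure (ZMod p)))).degree ≠ 0 := by
      rw [degree_map]
      exact (degree_pos_of_irreducible hg).ne'
    obtain ⟨α, hα⟩ := IsAlgClosed.exists_root _ hdeg
    have hα' : aeval α g = 0 := by
      rwa [IsRoot.def, eval_map_algebraMap] at hα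
    have hmin := minpoly.eq_of_irreducible hg hα'
    have hlead : g.leadingCoeff ≠ 0 := leadingCoeff_ne_zero.2 hg.ne_zero
    have hdegm : (minpoly (kp p ℓ (AlgebraicClosure (ZMod p))) α).natDegree = g.natDegree := by
      rw [← hmin, natDegree_mul_C (inv_ne_zero hlead)]
    have hint : IsIntegral (kp p ℓ (AlgebraicClosure (ZMod p))) α := Algebra.IsIntegral.isIntegral α
    obtain ⟨K, hK1, hK2, hK3⟩ := kp_fin p ℓ (AlgebraicClosure (ZMod p))
      (minpoly (kp p ℓ (AlgebraicClosure (ZMod p))) α).coeffs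
    have hlift : minpoly (kp p ℓ (AlgebraicClosure (ZMod p))) α ∈
        lifts (algebraMap K (kp p ℓ (AlgebraicClosure (ZMod p)))) := by
      rw [lifts_iff_coeff_lifts]
      intro n
      by_cases h0 : (minpoly (kp p ℓ (AlgebraicClosure (ZMod p))) α).coeff n = 0
      · rw [h0]
        exact ⟨0, map_zero _⟩
      · exact ⟨⟨_, hK1 _ (coeff_mem_coeffs h0)⟩, rfl⟩
    obtain ⟨h, hh1, hh2, hh3⟩ := lifts_and_natDegree_eq_and_monic hlift (minpoly.monic hint)
    have hirr : Irreducible h := by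
      refine Monic.irreducible_of_irreducible_map (algebraMap K (kp p ℓ (AlgebraicClosure (ZMod p)))) h hh3 ?_
      rw [hh1]
      exact minpoly.irreducible hint
    have hroot : aeval α h = 0 := by
      have := minpoly.aeval (kp p ℓ (AlgebraicClosure (ZMod p))) α
      rw [← hh1, aeval_map_algebraMap] at this
      exact this
    have hminK : minpoly K α = h := (minpoly.eq_of_irreducible_of_monic hirr hroot hh3).symm
    have hintK : IsIntegral K α := ⟨h, hh3, hroot⟩
    have hfr : Module.finrank K (IntermediateField.adjoin K {α}) = g.natDegree := by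
      rw [IntermediateField.adjoin.finrank hintK, hminK, hh2, hdegm]
    have : FiniteDimensional K (IntermediateField.adjoin K {α}) := IntermediateField.adjoin.finiteDimensional hintK
    have : Finite (IntermediateField.adjoin K {α}) := Module.finite_of_finite K
    have hc1 : Nat.card (IntermediateField.adjoin K {α}) = Nat.card K ^ g.natDegree := by
      rw [← hfr]
      exact Module.natCard_eq_pow_finrank
    have hc2 : Nat.card K = p ^ Module.finrank (ZMod p) K := by
      have : Module.Finite (ZMod p) K := Module.Finite.of_finite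
      rw [Module.natCard_eq_pow_finrank (K := ZMod p), Nat.card_zmod]
    have hmem : α ∈ kp p ℓ (AlgebraicClosure (ZMod p)) := by
      refine ⟨Module.finrank (ZMod p) K * g.natDegree, fun h => (hl.dvd_mul.1 h).elim hK3 hdiv, ?_⟩
      have := Fintype.ofFinite (IntermediateField.adjoin K {α})
      have h1 := FiniteField.pow_card (⟨α, IntermediateField.mem_adjoin_simple_self K α⟩ : IntermediateField.adjoin K {α})
      rw [← Nat.card_eq_fintype_card, hc1, hc2, ← pow_mul] at h1
      exact congrArg Subtype.val h1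
    apply hN
    rw [← hdegm]
    exact minpoly.natDegree_eq_one_iff.2 ⟨⟨α, hmem⟩, rfl⟩
  · intro S
    obtain ⟨K, h1, h2, h3⟩ := kp_fin p ℓ (AlgebraicClosure (ZMod p)) S
    exact ⟨K, h1, Module.Finite.of_finite, h3⟩

end Pool.Agent.Q225.TL
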