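import Mathlib
import Pool.Agent.Q49.TL.Alg

/-! # Project TL, JOB TL-LOC -/

set_option autoImplicit false

open MvPolynomial

namespace Pool.Agent.Q225.TL

open Pool.Agent.Q49.TL

/-- clearing denominators -/
theorem clear {A K : Type} [CommRing A] [IsDomain A] [Field K] [Algebra A K] [IsFractionRing A K]
    {ι : Type} (f : MvPolynomial ι K) : ∃ (c : A) (g : MvPolynomial ι A), c ≠ 0 ∧
      MvPolynomial.map (algebraMap A K) g = C (algebraMap A K c) * f := by
  classical
  obtain ⟨b, hb⟩ := IsLocalization.exist_integer_multiples (nonZeroDivisors A) f.support (fun a => f.coeff a)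
  have hb' : ∀ a ∈ f.support, ∃ r : A, algebraMap A K r = algebraMap A K (b : A) * f.coeff a := by
    intro a ha
    obtain ⟨r, hr⟩ := hb a ha
    refine ⟨r, hr.trans ?_⟩
    exact Algebra.smul_def _ _
  choose! r hr using hb'
  refine ⟨b, ∑ a ∈ f.support, monomial a (r a), nonZeroDivisors.coe_ne_zero b, ?_⟩
  rw [map_sum]
  conv_rhs => rw [f.as_sum, Finset.mul_sum]
  refine Finset.sum_congr rfl fun a ha => ?_
  rw [map_monomial, C_mul_monomial, hr a ha]

theorem wh_clear {A K : Type} [CommRing A] [IsDomain A] [Field K] [Algebra A K] [IsFractionRing A K]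
    {ι : Type} (w : ι → ℕ) (e : ℕ) (f : MvPolynomial ι K) (hf : IsWeightedHomogeneous w f e) (c : A)
    (g : MvPolynomial ι A) (h : MvPolynomial.map (algebraMap A K) g = C (algebraMap A K c) * f) :
    IsWeightedHomogeneous w g e := by
  intro d hd
  apply hf
  intro h0
  apply hd
  have := congrArg (coeff d) h
  rw [coeff_map, coeff_C_mul, h0, mul_zero] at this
  exact (IsFractionRing.injective A K) (this.trans (map_zero _).symm)

theorem eval_scale {R : Type} [CommRing R] {ι : Type} [Fintype ι] (w : ι → ℕ) (e : ℕ) (g : MvPolynomial ι R)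
    (hg : IsWeightedHomogeneous w g e) (t : R) (x : ι → R) :
    eval (fun i => t ^ w i * x i) g = t ^ e * eval x g := by
  rw [eval_eq', eval_eq', Finset.mul_sum]
  refine Finset.sum_congr rfl fun d hd => ?_
  have hwd : ∑ i, w i * d i = e := by
    rw [← hg (mem_support_iff.1 hd), Finsupp.weight_apply, Finsupp.sum_fintype _ _ (fun i => by simp)]
    exact Finset.sum_congr rfl fun i _ => by rw [smul_eq_mul, mul_comm]
  have : ∏ i, (t ^ w i * x i) ^ d i = t ^ e * ∏ i, x i ^ d i := by
    rw [← hwd, ← Finset.prod_pow_eq_pow_sum, ← Finset.prod_mul_distrib]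
    exact Finset.prod_congr rfl fun i _ => by rw [mul_pow, pow_mul]
  rw [this]
  ring

/-- all coefficients are weighted homogeneous -/
def WHs {σ F : Type} [Field F] (W : σ → ℕ) (d : ℕ) (φ : PowerSeries (MvPolynomial σ F)) : Prop :=
  ∀ m, IsWeightedHomogeneous W (PowerSeries.coeff m φ) d

section whs

variable {σ F : Type} [Field F] {W : σ → ℕ}

theorem WHs.mul {a b : ℕ} {φ ψ : PowerSeries (MvPolynomial σ F)} (h1 : WHs W a φ) (h2 : WHs W b ψ) :
    WHs W (a + b) (φ * ψ) := by
  intro m
  rw [PowerSeries.coeff_mul]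
  exact IsWeightedHomogeneous.sum _ _ _ fun p _ => (h1 p.1).mul (h2 p.2)

theorem WHs.one : WHs W 0 (1 : PowerSeries (MvPolynomial σ F)) := by
  intro m
  rw [PowerSeries.coeff_one]
  split_ifs
  · exact isWeightedHomogeneous_one F W
  · exact isWeightedHomogeneous_zero F W 0

theorem WHs.pow {a : ℕ} {φ : PowerSeries (MvPolynomial σ F)} (h1 : WHs W a φ) (n : ℕ) :
    WHs W (n * a) (φ ^ n) := by
  induction n with
  | zero => rw [Nat.zero_mul, pow_zero]; exact WHs.one
  | succ n ih => rw [Nat.succ_mul, pow_succ]; exact ih.mul h1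

theorem WHs.prod {ι : Type} (s : Finset ι) (a : ι → ℕ) (φ : ι → PowerSeries (MvPolynomial σ F))
    (h : ∀ i, WHs W (a i) (φ i)) : WHs W (∑ i ∈ s, a i) (∏ i ∈ s, φ i) := by
  classical
  induction s using Finset.induction_on with
  | empty => rw [Finset.sum_empty, Finset.prod_empty]; exact WHs.one
  | insert i s hi ih => rw [Finset.sum_insert hi, Finset.prod_insert hi]; exact (h i).mul ih

theorem WHs.mapC (r : PowerSeries F) : WHs W 0 (PowerSeries.map (C : F →+* MvPolynomial σ F) r) := by
  intro m
  rw [PowerSeries.coeff_map]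
  exact isWeightedHomogeneous_C W _

theorem WHs.eval₂ {ι : Type} [Fintype ι] (w : ι → ℕ) (e : ℕ) (g : MvPolynomial ι (PowerSeries F))
    (hg : IsWeightedHomogeneous w g e) (X : ι → PowerSeries (MvPolynomial σ F)) (hX : ∀ i, WHs W (w i) (X i)) :
    WHs W e (MvPolynomial.eval₂ (PowerSeries.map (C : F →+* MvPolynomial σ F)) X g) := by
  intro m
  rw [eval₂_eq', map_sum]
  apply IsWeightedHomogeneous.sum
  intro d hd
  have hwd : ∑ i, d i * w i = e := by
    rw [← hg (mem_support_iff.1 hd), Finsupp.weight_apply, Finsupp.sum_fintype _ _ (fun i => by simp)]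
    exact Finset.sum_congr rfl fun i _ => by rw [smul_eq_mul]
  have h1 : WHs W (0 + ∑ i, d i * w i) (PowerSeries.map (C : F →+* MvPolynomial σ F) (g.coeff d) * ∏ i, X i ^ d i) :=
    (WHs.mapC _).mul (WHs.prod _ _ _ fun i => (hX i).pow (d i))
  rw [zero_add, hwd] at h1
  exact h1 m

end whs

theorem approx (h : S_CW) (F : Type) [Field F] [Finite F] (ι κ : Type) [Fintype ι] [Fintype κ] (w : ι → ℕ)
    (e : κ → ℕ) (g : κ → MvPolynomial ι (PowerSeries F)) (hw : ∀ i, 0 < w i) (he : ∀ j, 0 < e j)
    (hg : ∀ j, IsWeightedHomogeneous w (g j) (e j)) (hlt : ∑ j, e j * e j < ∑ i, w i * w i) (M : ℕ) :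
    ∃ x : ι → PowerSeries F, (∃ i, ¬ (PowerSeries.X : PowerSeries F) ^ w i ∣ x i) ∧
      ∀ j, (PowerSeries.X : PowerSeries F) ^ M ∣ eval x (g j) := by
  classical
  set s : ℕ := M * ∑ j, e j + 1 with hs
  set σ := (Σ i : ι, Fin (w i * s)) with hσ
  set W : σ → ℕ := fun a => w a.1 with hW
  set Xs : ι → PowerSeries (MvPolynomial σ F) := fun i =>
    PowerSeries.mk fun k => if hk : k < w i * s then X ⟨i, ⟨k, hk⟩⟩ else 0 with hXs
  have hXw : ∀ i, WHs W (w i) (Xs i) := by
    intro i m
    rw [hXs]
    simp only [PowerSeries.coeff_mk]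
    split_ifs with hk
    · exact isWeightedHomogeneous_X F W (⟨i, ⟨m, hk⟩⟩ : σ)
    · exact isWeightedHomogeneous_zero F W _
  obtain ⟨y, hy0, hy⟩ := h F σ (Σ j : κ, Fin (e j * s + M)) W (fun b => e b.1)
    (fun b => PowerSeries.coeff (b.2 : ℕ) (MvPolynomial.eval₂ (PowerSeries.map (C : F →+* MvPolynomial σ F)) Xs (g b.1)))
    (fun a => hw _) (fun b => he _) (fun b => WHs.eval₂ w (e b.1) (g b.1) (hg b.1) Xs hXw _) (by
      show ∑ b : (Σ j : κ, Fin (e j * s + M)), e b.1 < ∑ a : σ, w a.1
      rw [Fintype.sum_sigma, Fintype.sum_sigma]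
      simp only [Finset.sum_const, Finset.card_univ, Fintype.card_fin, smul_eq_mul]
      have e1 : ∑ j, (e j * s + M) * e j = s * ∑ j, e j * e j + M * ∑ j, e j := by
        rw [Finset.mul_sum, Finset.mul_sum, ← Finset.sum_add_distrib]
        exact Finset.sum_congr rfl fun j _ => by ring
      have e2 : ∑ i, w i * s * w i = s * ∑ i, w i * w i := by
        rw [Finset.mul_sum]
        exact Finset.sum_congr rfl fun j _ => by ring
      rw [e1, e2]
      nlinarith)
  set x : ι → PowerSeries F := fun i => PowerSeries.mk fun k => if hk : k < w i * s then y ⟨i, ⟨k, hk⟩⟩ else 0 with hx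
  have hxe : ∀ j, PowerSeries.map (eval y) (MvPolynomial.eval₂ (PowerSeries.map (C : F →+* MvPolynomial σ F)) Xs (g j)) =
      eval x (g j) := by
    intro j
    rw [eval₂_comp_left]
    have e1 : (PowerSeries.map (eval y)).comp (PowerSeries.map (C : F →+* MvPolynomial σ F)) = RingHom.id _ := by
      apply RingHom.ext
      intro r
      apply PowerSeries.ext
      intro n
      simp
    have e2 : (PowerSeries.map (eval y)) ∘ Xs = x := by
      funext i
      apply PowerSeries.ext
      intro n
      simp only [Function.comp, hXs, hx, PowerSeries.coeff_map, PowerSeries.coeff_mk]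
      split_ifs with hk
      · exact eval_X _
      · exact map_zero _
    rw [e1, e2]
    rfl
  have hdvd : ∀ j, (PowerSeries.X : PowerSeries F) ^ (e j * s + M) ∣ eval x (g j) := by
    intro j
    rw [PowerSeries.X_pow_dvd_iff]
    intro m hm
    rw [← hxe, PowerSeries.coeff_map]
    exact hy ⟨j, ⟨m, hm⟩⟩
  -- the least `a`
  have hex : ∃ a : ℕ, ∃ i, ¬ (PowerSeries.X : PowerSeries F) ^ ((a + 1) * w i) ∣ x i := by
    obtain ⟨⟨i, k⟩, hk⟩ := Function.ne_iff.1 hy0
    refine ⟨s - 1, i, fun hd => hk ?_⟩
    rw [PowerSeries.X_pow_dvd_iff] at hd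
    have h1 := hd k (by
      have h2 := k.2
      rw [show (s - 1 + 1) * w i = w i * s by rw [show s - 1 + 1 = s by omega, mul_comm]]
      exact h2)
    simpa [hx] using h1
  set a := Nat.find hex with ha
  have ha1 := Nat.find_spec hex
  have ha2 : ∀ i, (PowerSeries.X : PowerSeries F) ^ (a * w i) ∣ x i := by
    rcases Nat.eq_zero_or_pos a with h0 | h0
    · intro i
      rw [h0, Nat.zero_mul, pow_zero]
      exact one_dvd _
    · have := Nat.find_min hex (m := a - 1) (by omega)
      push Not at this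
      rwa [show a - 1 + 1 = a by omega] at this
  have ha3 : a ≤ s := by
    have : a ≤ s - 1 := by
      apply Nat.find_min' hex
      obtain ⟨⟨i, k⟩, hk⟩ := Function.ne_iff.1 hy0
      refine ⟨i, fun hd => hk ?_⟩
      rw [PowerSeries.X_pow_dvd_iff] at hd
      have h1 := hd k (by
        have h2 := k.2
        rw [show (s - 1 + 1) * w i = w i * s by rw [show s - 1 + 1 = s by omega, mul_comm]]
        exact h2)
      simpa [hx] using h1
    omega
  choose x' hx' using ha2
  refine ⟨x', ?_, ?_⟩
  · obtain ⟨i, hi⟩ := ha1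
    refine ⟨i, fun hd => hi ?_⟩
    rw [hx' i, Nat.add_mul, Nat.one_mul, pow_add]
    exact mul_dvd_mul_left _ hd
  · intro j
    have e1 : eval x (g j) = ((PowerSeries.X : PowerSeries F) ^ a) ^ e j * eval x' (g j) := by
      rw [← eval_scale w (e j) (g j) (hg j)]
      congr 1
      congr 1
      funext i
      rw [hx' i, pow_mul]
    have e2 := hdvd j
    rw [e1, ← pow_mul] at e2
    obtain ⟨r, hr⟩ : ∃ r, e j * s + M = a * e j + (r + M) := by
      refine ⟨e j * s - a * e j, ?_⟩
      have : a * e j ≤ e j * s := by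
        rw [mul_comm a]
        exact Nat.mul_le_mul_left _ ha3
      omega
    rw [hr, pow_add] at e2
    have e3 := (mul_dvd_mul_iff_left (pow_ne_zero _ PowerSeries.X_ne_zero)).1 e2
    rw [pow_add] at e3
    exact (Dvd.intro_left _ rfl).trans e3

theorem cont_coeff {F : Type} [Field F] [TopologicalSpace F] [IsTopologicalRing F] {ι : Type}
    (g : MvPolynomial ι (PowerSeries F)) : ∀ m : ℕ,
    Continuous fun x : ι → ℕ → F => PowerSeries.coeff m (eval (fun i => PowerSeries.mk (x i)) g) := by
  induction g using MvPolynomial.induction_on with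
  | C r =>
    intro m
    simp only [eval_C]
    exact continuous_const
  | add p q hp hq =>
    intro m
    simp only [map_add]
    exact (hp m).add (hq m)
  | mul_X p i hp =>
    intro m
    simp only [map_mul, eval_X, PowerSeries.coeff_mul, PowerSeries.coeff_mk]
    refine continuous_finsetSum _ fun a _ => (hp a.1).mul ?_
    exact (continuous_apply a.2).comp (continuous_apply i)

theorem loc (h : S_CW) : S_LOC := by
  intro F _ _ ι κ _ _ w e f hw he hf hlt
  have hcl := fun j => clear (A := PowerSeries F) (f j)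
  choose c g hc hg using hcl
  have hgw : ∀ j, IsWeightedHomogeneous w (g j) (e j) := fun j => wh_clear w (e j) (f j) (hf j) (c j) (g j) (hg j)
  letI : TopologicalSpace F := ⊥
  haveI : DiscreteTopology F := ⟨rfl⟩
  haveI : IsTopologicalRing F := inferInstance
  set Z : ℕ → Set (ι → ℕ → F) := fun M => {x | (∃ i, ∃ k, k < w i ∧ x i k ≠ 0) ∧ ∀ j, ∀ m, m < M →
    PowerSeries.coeff m (eval (fun i => PowerSeries.mk (x i)) (g j)) = 0} with hZ
  have hne : ∀ M, (Z M).Nonempty := by
    intro M
    obtain ⟨x, hx1, hx2⟩ := approx h F ι κ w e g hw he hgw hlt M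
    refine ⟨fun i k => PowerSeries.coeff k (x i), ?_, ?_⟩
    · obtain ⟨i, hi⟩ := hx1
      rw [PowerSeries.X_pow_dvd_iff] at hi
      push Not at hi
      exact ⟨i, hi⟩
    · intro j m hm
      have h1 := hx2 j
      rw [PowerSeries.X_pow_dvd_iff] at h1
      have h2 : (fun i => PowerSeries.mk fun k => PowerSeries.coeff k (x i)) = x := by
        funext i
        apply PowerSeries.ext
        intro n
        rw [PowerSeries.coeff_mk]
      show PowerSeries.coeff m (eval (fun i => PowerSeries.mk fun k => PowerSeries.coeff k (x i)) (g j)) = 0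
      rw [h2]
      exact h1 m hm
  have hcl : ∀ M, IsClosed (Z M) := by
    intro M
    have h1 : IsClosed {x : ι → ℕ → F | ∃ i, ∃ k, k < w i ∧ x i k ≠ 0} := by
      have : {x : ι → ℕ → F | ∃ i, ∃ k, k < w i ∧ x i k ≠ 0} = ⋃ i : ι, ⋃ k : Fin (w i), {x | x i k ≠ 0} := by
        ext x
        simp only [Set.mem_ofPred_eq, Set.mem_iUnion]
        constructor
        · rintro ⟨i, k, hk, hx⟩
          exact ⟨i, ⟨k, hk⟩, hx⟩
        · rintro ⟨i, k, hx⟩
          exact ⟨i, k, k.2, hx⟩
      rw [this]
      refine isClosed_iUnion_of_finite fun i => isClosed_iUnion_of_finite fun k => ?_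
      have hcont : Continuous fun x : ι → ℕ → F => x i k := (continuous_apply (k : ℕ)).comp (continuous_apply i)
      exact (isClosed_discrete ({0}ᶜ : Set F)).preimage hcont
    have h2 : IsClosed {x : ι → ℕ → F | ∀ j, ∀ m, m < M →
        PowerSeries.coeff m (eval (fun i => PowerSeries.mk (x i)) (g j)) = 0} := by
      simp only [Set.ofPred_forall]
      refine isClosed_iInter fun j => isClosed_iInter fun m => isClosed_iInter fun _ => ?_
      exact (isClosed_discrete ({0} : Set F)).preimage (cont_coeff (g j) m)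
    exact h1.inter h2
  obtain ⟨x, hx⟩ := IsCompact.nonempty_iInter_of_sequence_nonempty_isCompact_isClosed Z
    (fun M x hx => ⟨hx.1, fun j m hm => hx.2 j m (by omega)⟩) hne (hcl 0).isCompact hcl
  rw [Set.mem_iInter] at hx
  have hx1 := (hx 0).1
  have hx2 : ∀ j, eval (fun i => PowerSeries.mk (x i)) (g j) = 0 := by
    intro j
    apply PowerSeries.ext
    intro m
    rw [map_zero]
    exact (hx (m + 1)).2 j m (by omega)
  refine ⟨fun i => algebraMap (PowerSeries F) (LaurentSeries F) (PowerSeries.mk (x i)), ?_, ?_⟩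
  · intro h0
    obtain ⟨i, k, _, hk⟩ := hx1
    apply hk
    have h1 := congrFun h0 i
    have h2 : PowerSeries.mk (x i) = 0 := (IsFractionRing.injective (PowerSeries F) (LaurentSeries F)) (h1.trans (map_zero _).symm)
    have h3 := congrArg (PowerSeries.coeff k) h2
    rwa [PowerSeries.coeff_mk, map_zero] at h3
  · intro j
    have h1 : eval (fun i => algebraMap (PowerSeries F) (LaurentSeries F) (PowerSeries.mk (x i)))
        (MvPolynomial.map (algebraMap (PowerSeries F) (LaurentSeries F)) (g j)) = 0 := by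
      have := congrArg (algebraMap (PowerSeries F) (LaurentSeries F)) (hx2 j)
      rw [map_zero, ← eval₂_id, hom_eval₂] at this
      rw [eval_map]
      exact this
    rw [hg j, map_mul, eval_C] at h1
    rcases mul_eq_zero.1 h1 with h2 | h2
    · exact absurd ((IsFractionRing.injective (PowerSeries F) (LaurentSeries F)) (h2.trans (map_zero _).symm)) (hc j)
    · exact h2

end Pool.Agent.Q225.TL
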