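import Pool.Agent.Q49.TL.Alg

set_option autoImplicit false

/-! # Project TL, JOB NOE: noetherian induction -/

namespace Pool.Agent.Q225.TL

open MvPolynomial
open Pool.Agent.Q49.TL

attribute [local instance] MvPolynomial.weightedGradedAlgebra

section aux

variable {κ : Type} [Field κ] {ι : Type}

theorem gr_top (w : ι → ℕ) : Gr w (⊤ : Ideal (MvPolynomial ι κ)) := fun _ _ _ => Submodule.mem_top

theorem gr_hom {w : ι → ℕ} {J : Ideal (MvPolynomial ι κ)} (h : Gr w J) :
    J.IsHomogeneous (weightedHomogeneousSubmodule κ w) := by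
  intro m r hr
  have e : ((DirectSum.decompose (weightedHomogeneousSubmodule κ w) r m : _) : MvPolynomial ι κ) =
      weightedHomogeneousComponent w m r := weightedDecomposition.decompose'_apply κ w r m
  rw [e]
  exact h r hr m

/-- graded ideals which are not prime -/
theorem not_prime {w : ι → ℕ} {J : Ideal (MvPolynomial ι κ)} (h : Gr w J) (ht : J ≠ ⊤) (hp : ¬ J.IsPrime) :
    ∃ (a b : MvPolynomial ι κ) (e : ℕ), IsWeightedHomogeneous w a e ∧ a ∉ J ∧ b ∉ J ∧ a * b ∈ J := by
  by_contra hc
  push Not at hc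
  apply hp
  refine (gr_hom h).isPrime_of_homogeneous_mem_or_mem ht ?_
  rintro x y ⟨m, hx⟩ _ hxy
  by_contra hcc
  push Not at hcc
  exact hc x y m hx hcc.1 hcc.2 hxy

theorem hs_irr (ℓ : ℕ) {w : ι → ℕ} (hw : ∀ i, 0 < w i) {J : Ideal (MvPolynomial ι κ)}
    (hp : J.IsPrime) (hX : ∀ i, X i ∈ J) :
    hs ℓ w (⊤ : Ideal (MvPolynomial ι κ)) - hs ℓ w J = 1 := by
  classical
  have hzero : ∀ f : MvPolynomial ι κ, IsWeightedHomogeneous w f 0 → f = C (coeff 0 f) := by
    intro f hf
    ext d
    rw [coeff_C]
    split_ifs with hd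
    · rw [hd]
    · by_contra hne
      have h1 := hf hne
      apply hd
      ext i
      by_contra hi
      have hi' : d i ≠ 0 := fun h => hi (by simp [h])
      have h2 : w i ≤ Finsupp.weight w d := Finsupp.le_weight_of_ne_zero' w hi'
      have := hw i
      omega
  have hpos : ∀ (f : MvPolynomial ι κ) (m : ℕ), 0 < m → IsWeightedHomogeneous w f m → f ∈ J := by
    intro f m hm hf
    rw [f.as_sum]
    apply Ideal.sum_mem
    intro d hd
    have h1 := hf (mem_support_iff.1 hd)
    have h2 : d ≠ 0 := by
      rintro rfl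
      simp at h1
      omega
    obtain ⟨i, hi⟩ := Finsupp.ne_iff.1 h2
    have h3 : monomial d (coeff d f) = monomial (d - Finsupp.single i 1) (coeff d f) * X i := by
      have h4 : d - Finsupp.single i 1 + Finsupp.single i 1 = d := by
        ext j
        by_cases hj : j = i
        · subst hj
          have : d j ≠ 0 := hi
          simp
          omega
        · simp [Finsupp.single_apply, Ne.symm hj]
      rw [X, monomial_mul, mul_one, h4]
    rw [h3]
    exact J.mul_mem_left _ (hX i)
  ext m
  rw [map_sub, hs, hs, PowerSeries.coeff_mk, PowerSeries.coeff_mk, PowerSeries.coeff_one]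
  split_ifs with hm
  · subst hm
    have e1 : pc w J 0 = ⊥ := by
      rw [eq_bot_iff]
      rintro f ⟨hf1, hf2⟩
      have hf3 := hzero f hf2
      rw [Submodule.mem_bot]
      by_contra hne
      have hc : coeff 0 f ≠ 0 := by
        intro h0
        apply hne
        rw [hf3, h0, C_0]
      have h4 : C (coeff 0 f) ∈ J := by
        rw [← hf3]
        exact hf1
      have h5 : (1 : MvPolynomial ι κ) ∈ J := by
        have := J.mul_mem_left (C (coeff 0 f)⁻¹) h4
        rwa [← C_mul, inv_mul_cancel₀ hc, C_1] at this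
      exact hp.ne_top ((Ideal.eq_top_iff_one J).2 h5)
    have e2 : pc w (⊤ : Ideal (MvPolynomial ι κ)) 0 = Submodule.span κ {(1 : MvPolynomial ι κ)} := by
      ext f
      constructor
      · rintro ⟨_, hf2⟩
        rw [Submodule.mem_span_singleton]
        exact ⟨coeff 0 f, by rw [smul_eq_C_mul, mul_one]; exact (hzero f hf2).symm⟩
      · intro hf
        rw [Submodule.mem_span_singleton] at hf
        obtain ⟨c, rfl⟩ := hf
        refine ⟨Submodule.mem_top, ?_⟩
        have : IsWeightedHomogeneous w (c • (1 : MvPolynomial ι κ)) 0 := by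
          rw [smul_eq_C_mul, mul_one]
          exact isWeightedHomogeneous_C w c
        exact this
    rw [e1, e2, finrank_bot, finrank_span_singleton one_ne_zero]
    simp
  · have e1 : pc w J m = pc w (⊤ : Ideal (MvPolynomial ι κ)) m := by
      ext f
      constructor
      · rintro ⟨_, hf2⟩
        exact ⟨Submodule.mem_top, hf2⟩
      · rintro ⟨_, hf2⟩
        exact ⟨hpos f m (by omega) hf2, hf2⟩
    rw [e1, sub_self]

end aux

theorem noe (_ : S_FD) (h : S_HS) : S_NOE := by
  intro ℓ κ _ ι _ w hw I hI J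
  induction J using WellFoundedGT.induction with
  | ind J ih =>
    intro hJ hIJ
    by_cases ht : J = ⊤
    · exact ⟨0, by rw [ht, sub_self, Polynomial.coe_zero]⟩
    by_cases hp : J.IsPrime
    · rcases hI J hp hJ hIJ with hX | ⟨J', hJ', hlt, he⟩
      · exact ⟨1, by rw [hs_irr ℓ hw hp hX, Polynomial.coe_one]⟩
      · obtain ⟨q, hq⟩ := ih J' hlt hJ' (hIJ.trans hlt.le)
        exact ⟨q, by rw [← he]; exact hq⟩
    · obtain ⟨a, b, e, ha, haJ, hbJ, hab⟩ := not_prime hJ ht hp
      obtain ⟨g1, g2, g3⟩ := h ℓ κ ι w hw J ⊤ hJ (gr_top w) le_top a e ha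
      have l1 : J < J ⊔ Ideal.span {a} * ⊤ := by
        refine lt_of_le_of_ne le_sup_left ?_
        intro he
        apply haJ
        rw [he]
        apply Ideal.mem_sup_right
        have := Ideal.mul_mem_mul (Ideal.mem_span_singleton_self a) (Submodule.mem_top : (1 : MvPolynomial ι κ) ∈ (⊤ : Ideal _))
        rwa [mul_one] at this
      have l2 : J < ⊤ ⊓ qt J a := by
        refine lt_of_le_of_ne ?_ ?_
        · rw [top_inf_eq]
          intro x hx
          exact J.mul_mem_left a hx
        · intro he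
          apply hbJ
          rw [he]
          exact ⟨Submodule.mem_top, hab⟩
      obtain ⟨q1, h1⟩ := ih _ l1 g1 (hIJ.trans l1.le)
      obtain ⟨q2, h2⟩ := ih _ l2 g2 (hIJ.trans l2.le)
      refine ⟨q1 + Polynomial.X ^ e * q2, ?_⟩
      rw [Polynomial.coe_add, Polynomial.coe_mul, Polynomial.coe_pow, Polynomial.coe_X, ← h1, ← h2]
      linear_combination g3

end Pool.Agent.Q225.TL
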